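import Pool.Agent.helper58.DC.Spec4
set_option autoImplicit false
open Pool.Agent Pool.Agent.helper58.DC
namespace Pool.Agent.helper53.DZ

theorem BE (hDVD : DD.DVD_stmt) (hIRF : DD.IRF_stmt) : BE_stmt := by
  intro G _ _ p hp M χ hχ
  constructor
  · have hcard : Nat.card (⊤ : Subgroup G) = Nat.card G := Nat.card_congr Subgroup.topEquiv.toEquiv
    obtain ⟨n, hn0, hn⟩ := ((hIRF G).2 χ hχ).1
    have hne : ∃ d : ℤ, d ∈ {d : ℤ | ∃ ψ ∈ Irr G, Induces M ψ χ ∧ Defect p ⊤ ψ d} :=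
      ⟨_, χ, hχ, fun g => ⟨0, M.zero_mem, by simp⟩, n, hn, rfl⟩
    have hbd : ∃ b : ℤ, ∀ z : ℤ, z ∈ {d : ℤ | ∃ ψ ∈ Irr G, Induces M ψ χ ∧ Defect p ⊤ ψ d} →
        z ≤ b := by
      refine ⟨(padicValNat p (Nat.card (⊤ : Subgroup G)) : ℤ), ?_⟩
      rintro z ⟨ψ, hψ, -, m, hm, rfl⟩
      omega
    obtain ⟨D, hD1, hD2⟩ := Int.exists_greatest_of_bdd hbd hne
    have hD0 : 0 ≤ D := by
      obtain ⟨ψ, hψ, -, m, hm, rfl⟩ := hD1
      have h1 := hDVD G ψ hψ m hm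
      have hG : Nat.card G ≠ 0 := Nat.card_pos.ne'
      have h2 : padicValNat p m ≤ padicValNat p (Nat.card G) := by
        have hfp : Fact p.Prime := ⟨hp⟩
        exact (padicValNat_dvd_iff_le hG).1 (pow_padicValNat_dvd.trans h1)
      rw [hcard]
      omega
    refine ⟨D.toNat, ?_⟩
    unfold BlockDefect
    rw [Int.toNat_of_nonneg hD0]
    exact ⟨hD1, fun z hz => hD2 z hz⟩
  · intro D hD
    constructor
    · intro h0
      obtain ⟨ψ, hψ, h1, h2⟩ := hD.1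
      exact ⟨ψ, hψ, h1, D, by exact_mod_cast h0, h2⟩
    · rintro ⟨ψ, hψ, h1, d, hd, h2⟩
      have h3 : d ≤ (D : ℤ) := hD.2 ⟨ψ, hψ, h1, h2⟩
      omega

end Pool.Agent.helper53.DZ
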