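import Pool.Agent.helper58.DC.Spec4
set_option autoImplicit false
open Pool.Agent Pool.Agent.helper58.DC
namespace Pool.Agent.helper53.DZ

theorem KI_omega {G : Type} [Group G] [Finite G] {χ : G → ℂ} (hχ : χ ∈ Irr G) (g : G) :
    omega χ g = helper49.Blk.omega χ g := by
  unfold omega helper49.Blk.omega
  congr 1
  obtain ⟨V, _, _, _, ρ, -, rfl⟩ := hχ
  have h1 : ∀ x ∈ conjugatesOf g, ρ.character x = ρ.character g := fun x hx =>
    (helper49.Blk.char_conj' ρ hx).symm
  have hf : (conjugatesOf g).Finite := Set.toFinite _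
  rw [finsum_mem_congr rfl h1, finsum_mem_eq_finite_toFinset_sum _ hf, Finset.sum_const,
    ← Set.ncard_eq_toFinset_card _ hf, nsmul_eq_mul]
  rfl

open Classical in
theorem KI : KI_stmt := by
  intro G _ _ p M N ψ ψ' hψ
  have hres : (fun h : N => ψ' (h : G)) = ψ := by
    funext h
    rw [hψ, dif_pos h.2]
  have hone : ψ' 1 = ψ 1 := by
    rw [hψ, dif_pos N.one_mem]
    rfl
  refine ⟨?_, ?_, ?_⟩
  · unfold IrrOn
    constructor
    · intro h
      refine ⟨fun g hg => ?_, ?_⟩
      · rw [hψ, dif_neg hg]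
      · rw [hres]; exact h
    · rintro ⟨-, h⟩
      rw [hres] at h
      exact h
  · intro d
    unfold DD.Defc Defect
    rw [hone]
    constructor
    · rintro ⟨m, hm, h⟩
      exact ⟨m, hm, by omega⟩
    · rintro ⟨m, hm, h⟩
      exact ⟨m, hm, by omega⟩
  · intro χ hχ
    have hom : ∀ g : G, DD.omInd N ψ g = omega ψ' g := by
      intro g
      unfold DD.omInd omega
      rw [hone]
      congr 1
      have h1 : ∑ᶠ x ∈ (Subtype.val '' {x : N | IsConj g (x : G)} : Set G), ψ' x =
          ∑ᶠ x ∈ {x : N | IsConj g (x : G)}, ψ x := by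
        rw [finsum_mem_image Subtype.val_injective.injOn]
        refine finsum_mem_congr rfl fun x _ => ?_
        exact congrFun hres x
      rw [← h1]
      refine finsum_mem_inter_support_eq' _ _ _ fun x hx => ?_
      have hxN : x ∈ N := by
        by_contra h
        exact hx (by rw [hψ, dif_neg h])
      constructor
      · rintro ⟨y, hy, rfl⟩
        exact hy
      · intro h
        exact ⟨⟨x, hxN⟩, h, rfl⟩
    unfold DD.Induces Induces
    constructor
    · intro h g
      obtain ⟨a, ha, h2⟩ := h g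
      exact ⟨a, ha, by rw [← hom, KI_omega hχ]; exact h2⟩
    · intro h g
      obtain ⟨a, ha, h2⟩ := h g
      exact ⟨a, ha, by rw [hom, ← KI_omega hχ]; exact h2⟩

end Pool.Agent.helper53.DZ
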